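import Pool.Agent.Lead.Nnf1

namespace Pool.Agent.Results.MP_55f31a_lc.Q1

open Pool.Agent.Lead.Nnf

theorem result (L : Set NF) (hL : MonLogic L) (h : LIP L) : LPP L := lpp_of_lip hL h

end Pool.Agent.Results.MP_55f31a_lc.Q1
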